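import Pool.Agent.H63.Lw3

set_option autoImplicit false

namespace Pool.Agent.Results.MP_b50549_al.Drift

open Pool.Agent.H63.Lw

theorem result : ∃ (K : Type) (_ : Group K) (d : ℕ) (w : FreeGroup (Fin d))
    (μ ν : MonoidAlgebra ℝ K), Group.FG K ∧ w ≠ 1 ∧ IsStep μ ∧ IsStep ν ∧
      Pr μ w = 0 ∧ 0 < Pr ν w :=
  ⟨G, inferInstance, 6, word, mu, nu, G_fg, word_ne, mu_step, nu_step, mu_lim.limsup_eq, nu_pos⟩

end Pool.Agent.Results.MP_b50549_al.Drift
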